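import Pool.Agent.TH26.Zeta.Final

/-!
# Every arithmetic zeta function comes from a smooth affine cubic hypersurface over the integers

A `Gate` is one of the elementary equations `x_a x_b = x_c`, `x_a + x_b = x_c`, `x_a = 1` in the
variables `x_1, …, x_N`; its polynomial `g` is `x_a x_b - x_c`, `x_a + x_b - x_c` or `x_a - 1`. For a
sequence `G` of `m` gates `CubicRing G` is the ring `ℤ[x, t] / (t_1 g_1(x) + … + t_m g_m(x) - 1)` and
`cubicScheme G` is its spectrum.

The theorem: for every scheme `X` of finite type over `ℤ` there is such a hypersurface `Y`, smooth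
over `ℤ`, with

  `ζ_X(s) ζ_Y(s + m - 1) = ζ(s - N)` for `re s > N + 2` (the Euler products converge there).

For every finite field with `q` elements `q #Y(F_q) + q ^ m #X(F_q) = q ^ (m + N)`. So `ζ_X` is
meromorphic on the complex plane if and only if `ζ_Y` is, and then the order of `ζ_X` at any point `s`
is the order of the Riemann zeta function at `s - N` minus the order of `ζ_Y` at `s + m - 1`. The
conjecture (all zeta functions of schemes of finite type over `ℤ` are meromorphic on the complex
plane) is equivalent to its special case of the smooth affine cubic hypersurfaces `cubicScheme G`.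

Definitions (Pool.Agent.TH26.Zeta): `zetaProd` is the product over the closed points (the right side
of the frozen statement), `ConvergesAt` says that this product is multipliable, `IsCont X F` says that
`F` is meromorphic on the plane and equal to `zetaProd X` on some right half-plane; `PP` is the type of
the pairs `a = (p, k)` with `p` a prime, `a.q = p ^ (k + 1)`, and `cnt X a` is the number of points of
`X` with values in the field with `a.q` elements.
-/

namespace Pool.Agent.Results.MP_666bea_ag.CubicHypersurfaces

open AlgebraicGeometry CategoryTheory Pool.Agent.TH26.Zeta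

/-- Reduction of the meromorphic continuation of arithmetic zeta functions to smooth affine cubic
hypersurfaces over the integers. -/
theorem result :
    (∀ (X : Scheme.{0}) (f : X ⟶ Spec (CommRingCat.of ℤ)), LocallyOfFiniteType f → QuasiCompact f →
      ∃ (N m : ℕ) (G : Fin m → Gate (Fin N)),
        Algebra.Smooth ℤ (CubicRing G) ∧
        (∀ a : PP, a.q * cnt (cubicScheme G) a + a.q ^ m * cnt X a = a.q ^ (m + N)) ∧
        (∀ s : ℂ, (N : ℝ) + 2 < s.re →
          ConvergesAt X s ∧ ConvergesAt (cubicScheme G) (s + m - 1) ∧
            zetaProd X s * zetaProd (cubicScheme G) (s + m - 1) = riemannZeta (s - N)) ∧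
        ((∃ F, IsCont X F) ↔ ∃ F, IsCont (cubicScheme G) F) ∧
        (∀ F₁ F₂ : ℂ → ℂ, IsCont X F₁ → IsCont (cubicScheme G) F₂ → ∀ s : ℂ,
          meromorphicOrderAt F₁ s + meromorphicOrderAt F₂ (s + m - 1) =
            meromorphicOrderAt riemannZeta (s - N))) ∧
    ((∀ (X : Scheme.{0}) (f : X ⟶ Spec (CommRingCat.of ℤ)), LocallyOfFiniteType f →
        QuasiCompact f → ∃ F, IsCont X F) ↔
      ∀ (N m : ℕ) (G : Fin m → Gate (Fin N)), ∃ F, IsCont (cubicScheme G) F) := by
  have key : ∀ (X : Scheme.{0}) (f : X ⟶ Spec (CommRingCat.of ℤ)), LocallyOfFiniteType f →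
      QuasiCompact f → ∃ (N m : ℕ) (G : Fin m → Gate (Fin N)), Rel X (cubicScheme G) N m ∧
        ∀ a : PP, a.q * cnt (cubicScheme G) a + a.q ^ m * cnt X a = a.q ^ (m + N) := by
    intro X f h1 h2
    exact exists_rel f
  refine ⟨?_, ?_, ?_⟩
  · intro X f h1 h2
    obtain ⟨N, m, G, hG, hc⟩ := key X f h1 h2
    exact ⟨N, m, G, smooth_cubic G, hc, hG, cont_of_cont hG,
      fun F₁ F₂ hF₁ hF₂ s => orders hG hF₁ hF₂ s⟩
  · intro h N m G
    exact h (cubicScheme G) (cubicMap G) (lft_cubic G) (qc_cubic G)
  · intro h X f h1 h2
    obtain ⟨N, m, G, hG, -⟩ := key X f h1 h2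
    exact (cont_of_cont hG).mpr (h N m G)

end Pool.Agent.Results.MP_666bea_ag.CubicHypersurfaces
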