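import Pool.Agent.TH117.GN.Zeta

/-!
# Orders of zeta functions and ranks of higher Chow groups for schemes over finite fields generated by
abelian varieties

Over an algebraic closure of the field with `p` elements each abelian variety is isogenous to the
reduction of an abelian variety of CM type (Honda, Tate). So an abelian variety over the field with
`p ^ a` elements is modelled by `RedAV`: a finite product of CM types `(E i, Φ i)` with Weil numbers
`π i ∈ E i` that satisfy the formula of Shimura and Taniyama; its cohomology of degree `n`, with
coefficients in an algebraically closed field `Ω`, consists of the alternating `n`-forms on
`Ω ⊗ H_1`, on which the Frobenius endomorphism acts by `π`.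

The schemes `X` of finite type over the finite fields are the elements of `V`, and
`M X i j = H_i^M(X, ℚ(j)) = CH_j(X, i - 2 j) ⊗ ℚ` are their motivic homology groups. We consider the
smallest class of such schemes (`Generated`) that contains the schemes with the homology groups of
the abelian varieties `Y` with `IsGoodAV`, that is closed under direct summands of finite sums of twists
of motives, and that contains all of a closed subscheme `Z` of `X`, `X` and `X ∖ Z` if it contains two
of them. Here `IsGoodAV` means that `Y` is, over an algebraic closure, isogenous to a product of a
supersingular abelian variety and of powers of the factors of an abelian variety `Z` such that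

* the dimension of `Z` is at most five, and no two factors of `Z` form an exceptional pair; or
* the factors of `Z` have dimension at most three, and any two of them whose CM fields have the same
  Galois closure over `ℚ` are isogenous, unless these fields are Galois over `ℚ` or one of the two
  factors is supersingular.

The theorem: for all schemes `X` of this class and all `j` the groups `CH_j(X, i)` have finite rank,
they are torsion groups for almost all `i`, and minus the order of the zeta function of `X` at `s = j`
is the alternating sum of the ranks. The order of the zeta function is expressed by the multiplicities
of the eigenvalues of the Frobenius (`IsZetaOrder`, the theorem of Grothendieck).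

Properties of the theory of cycles that are used for the abelian varieties `Y` (`IsChow`,
`IsMotivic`): Poincaré duality, the formal properties of correspondences, the nilpotence of
homologically trivial correspondences (Kimura), the operation of the Frobenius endomorphism on higher
Chow groups, the vanishing of the higher rational `K`-groups of a finite field (Quillen), and the
algebraicity of the classes in `Alg` (theorems of Tate and Markman). The passage from the Tate
conjecture to all degrees is due to Soulé, Geisser, Kahn and Jannsen.
-/

namespace Pool.Agent.Results.MP_666bea_ag.GeneratedByAbelian

open Pool.Agent.W495.TA Pool.Agent.W495.FM Pool.Agent.TH117.GN Pool.Agent.TH117.GN.Zeta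

/-- The conjecture of Bloch and Soulé for all members of the class generated by the abelian varieties
`IsGoodAV`, at all integers. -/
theorem result (p : ℕ) [Fact p.Prime] (ν : PadicAlgCl p ≃+* ℂ) (Ω : Type) [Field Ω]
    [IsAlgClosed Ω] [CharZero Ω] (V : Type) (T : Homology Ω V) (hT : IsHomology T)
    (ord : V → ℤ → ℤ) (hord : IsZetaOrder T ord) (X : V)
    (hX : Generated T (IsGoodAbelian p ν T) X) (j : ℤ) : BlochSoule T ord X j :=
  blochSoule hT hord (tb_good hT hX) j

end Pool.Agent.Results.MP_666bea_ag.GeneratedByAbelian
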