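import Pool.Agent.TH90.Zet.Cont
import Pool.Agent.TH90.Zet.Rank

/-!
# Orders of zeta functions and ranks of higher Chow groups

`IsCont X F` (`Pool.Agent.TH26.Zeta`) says that `F` is meromorphic on the complex plane and equal to
the Euler product of `X`, the product over the closed points in the frozen statement of the problem,
on some right half-plane. This side is unconditional; for the higher Chow groups a list of known
formal properties is used.
-/

set_option autoImplicit false

open CategoryTheory AlgebraicGeometry Pool.Agent.TH26.Zeta Pool.Agent.TH90.Cub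
  Pool.Agent.TH90.Zet

namespace Pool.Agent.Results.MP_666bea_ag.OrdersAndRanks

/-- The formal properties used of the higher Chow groups `CH w i X = CH_w(X, i)` (cycles of
dimension `w + i` on `X × Δ^i`) of the schemes `X` of finite type over `ℤ`: they only depend on `X`
up to isomorphism, vanish for the empty scheme, there are localisation sequences
`… → CH_w(X \ Z, i + 1) → CH_w(Z, i) → CH_w(X, i) → CH_w(X \ Z, i) → … → CH_w(X \ Z, 0) → 0` for
closed `Z ⊆ X`, and `CH_w(A, i) ≅ CH_{w+1}(A[T], i)`. -/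
structure HigherChow where
  CH : ℤ → ℕ → Scheme.{0} → Type
  grp : ∀ w i X, AddCommGroup (CH w i X)
  iso : ∀ (w : ℤ) (i : ℕ) {X Y : Scheme.{0}} (_ : X ≅ Y) (g : Y ⟶ Spec (CommRingCat.of ℤ)),
    FT False ℤ g → Nonempty (CH w i X ≃+ CH w i Y)
  empty : ∀ (w : ℤ) (i : ℕ) (X : Scheme.{0}), IsEmpty X → Subsingleton (CH w i X)
  localization : ∀ {Z X U : Scheme.{0}} (f : X ⟶ Spec (CommRingCat.of ℤ)) (i : Z ⟶ X)
    (j : U ⟶ X), FT False ℤ f → IsClosedImmersion i → IsOpenImmersion j →
    Set.range i = (Set.range j)ᶜ → ∀ w : ℤ,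
    Nonempty (LES (fun n => CH w n Z) (fun n => CH w n X) (fun n => CH w n U))
  homotopy : ∀ (w : ℤ) (i : ℕ) (A : Type) [CommRing A] [Algebra ℤ A], Algebra.FiniteType ℤ A →
    Nonempty (CH w i (Spec (CommRingCat.of A)) ≃+
      CH (w + 1) i (Spec (CommRingCat.of (Polynomial A))))

attribute [instance] HigherChow.grp

/-- The conjecture for `X`: the zeta function of `X` has a meromorphic continuation `F` to the
complex plane, and for every integer `w` the groups `CH_w(X, i)` have finite rank, almost all of them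
rank `0`, and the order of `F` at `w` is minus the alternating sum of these ranks. -/
def HigherChow.Holds (T : HigherChow) (X : Scheme.{0}) : Prop :=
  ∃ F : ℂ → ℂ, IsCont X F ∧ ∀ w : ℤ, ∃ χ : ℤ, Euler (fun i => T.CH w i X) χ ∧
    meromorphicOrderAt F (w : ℂ) = ((-χ : ℤ) : WithTop ℤ)

/-- The ring `ℤ[x_1, …, x_n][t_0, …, t_r] / (g_0 t_0 + ⋯ + g_r t_r - 1)`. -/
abbrev CubicZ {n r : ℕ} (g : Fin (r + 1) → MvPolynomial (Fin n) ℤ) : Type :=
  Hyp (MvPolynomial (Fin n) ℤ) g

theorem order_ne {F : ℂ → ℂ} {w : ℂ} {a : ℤ} (h : meromorphicOrderAt F w = ((a : ℤ) : WithTop ℤ)) :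
    meromorphicOrderAt F⁻¹ w = ((-a : ℤ) : WithTop ℤ) := by
  rw [meromorphicOrderAt_inv, h]
  rfl

theorem isDevissage (T : HigherChow) : IsDevissage False ℤ (fun X _ => T.Holds X) where
  iso := by
    rintro X Y e g hg ⟨F, hF, h⟩
    refine ⟨F, cont_iso e g hg.lft hg.qc hF, fun w => ?_⟩
    obtain ⟨χ, h1, h2⟩ := h w
    exact ⟨χ, h1.of_iso (fun i => T.iso w i e g hg), h2⟩
  empty := by
    intro X f hX
    refine ⟨fun _ => 1, cont_empty hX, fun w => ⟨0, ?_, ?_⟩⟩
    · exact Euler.of_subsingleton (fun i => T.empty w i X hX)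
    · have h1 : meromorphicOrderAt (fun _ : ℂ => (1 : ℂ)) (w : ℂ) = 0 := by
        rw [meromorphicOrderAt_const]
        simp
      rw [h1]
      rfl
  closed := by
    rintro Z X U f i j hf hi hj hr ⟨F, hF, h⟩ ⟨G, hG, h'⟩
    refine ⟨F * G⁻¹, cont_closed f hf.lft hf.qc i j hi hj hr hF hG, fun w => ?_⟩
    obtain ⟨x, hx, hx'⟩ := h w
    obtain ⟨u, hu, hu'⟩ := h' w
    obtain ⟨S⟩ := T.localization f i j hf hi hj hr w
    refine ⟨x - u, S.closed hx hu, ?_⟩
    rw [meromorphicOrderAt_mul (hF.1 w trivial) ((hG.1 w trivial).inv), hx', order_ne hu',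
      ← WithTop.coe_add]
    congr 1
    ring
  total := by
    rintro Z X U f i j hf hi hj hr ⟨F, hF, h⟩ ⟨G, hG, h'⟩
    refine ⟨F * G, cont_total f hf.lft hf.qc i j hi hj hr hF hG, fun w => ?_⟩
    obtain ⟨x, hx, hx'⟩ := h w
    obtain ⟨u, hu, hu'⟩ := h' w
    obtain ⟨S⟩ := T.localization f i j hf hi hj hr w
    refine ⟨x + u, S.total hx hu, ?_⟩
    rw [meromorphicOrderAt_mul (hF.1 w trivial) (hG.1 w trivial), hx', hu', ← WithTop.coe_add]
    congr 1
    ring

theorem a1 (T : HigherChow) : A1 (k := ℤ) (fun X _ => T.Holds X) := by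
  intro A _ _ hA
  constructor
  · rintro ⟨F, hF, h⟩
    refine ⟨_, cont_poly A hA hF, fun w => ?_⟩
    obtain ⟨χ, h1, h2⟩ := h (w - 1)
    refine ⟨χ, h1.of_iso (fun i => ?_), ?_⟩
    · have := T.homotopy (w - 1) i A hA
      rwa [sub_add_cancel] at this
    · have h3 : meromorphicOrderAt (fun s => F (s + (-1))) (w : ℂ) =
          meromorphicOrderAt F ((w : ℂ) + (-1)) :=
        meromorphicOrderAt_comp_add_const_eq_meromorphicOrderAt
      rw [h3, ← h2]
      congr 1
      push_cast
      ring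
  · rintro ⟨F, hF, h⟩
    refine ⟨_, cont_of_poly A hA hF, fun w => ?_⟩
    obtain ⟨χ, h1, h2⟩ := h (w + 1)
    refine ⟨χ, h1.of_iso (fun i => ?_), ?_⟩
    · obtain ⟨e⟩ := T.homotopy w i A hA
      exact ⟨e.symm⟩
    · have h3 : meromorphicOrderAt (fun s => F (s + 1)) (w : ℂ) =
          meromorphicOrderAt F ((w : ℂ) + 1) :=
        meromorphicOrderAt_comp_add_const_eq_meromorphicOrderAt
      rw [h3, ← h2]
      congr 1
      push_cast
      ring

/-- The conjecture (meromorphic continuation, finite ranks, and the formula for the orders at all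
integers) holds for all schemes of finite type over `ℤ` if and only if it holds for the smooth
hypersurfaces `g_0 t_0 + ⋯ + g_r t_r = 1` of degree at most three in affine spaces over `ℤ`, where
each `g_i` is of the form `x_a x_b - x_c`, `x_a + x_b - x_c` or `x_a - 1`. -/
theorem result (T : HigherChow) :
    ((∀ (X : Scheme.{0}) (f : X ⟶ Spec (CommRingCat.of ℤ)), LocallyOfFiniteType f →
        QuasiCompact f → T.Holds X) ↔
      (∀ (n r : ℕ) (g : Fin (r + 1) → MvPolynomial (Fin n) ℤ), (∀ i, IsGate {1} (g i)) →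
        T.Holds (Spec (CommRingCat.of (CubicZ g))))) ∧
    (∀ (n r : ℕ) (g : Fin (r + 1) → MvPolynomial (Fin n) ℤ), Smooth (str ℤ (CubicZ g))) := by
  refine ⟨⟨fun h n r g _ => ?_, fun h X f hf1 hf2 => ?_⟩, fun n r g => ?_⟩
  · have hf : FT False ℤ (str ℤ (CubicZ g)) := ft_hyp g
    exact h _ (str ℤ (CubicZ g)) hf.lft hf.qc
  · exact all_of_cubics closure_one_int (Set.mem_singleton 1) (isDevissage T) (a1 T)
      (fun n r g hg => h n r g hg) f ⟨hf1, hf2, fun hs => hs.elim⟩
  · have := smooth_mv ℤ n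
    exact hyp_smooth_scheme ℤ _ g

end Pool.Agent.Results.MP_666bea_ag.OrdersAndRanks
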